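import Mathlib

/-!
For every `n` there is a finite soluble group whose hypercentre is not the intersection of `n`
system normalizers. The group consists of the block matrices `[[1, a, c], [0, I, b], [0, 0, e]]`
over the field with three elements, with `a` a row and `b` a column of length `n`.
-/

namespace Pool.Agent.Results.MP_c7d465_al.NoBound

open Pointwise

/-- A Sylow system: one Sylow subgroup for each prime, such that they permute pairwise. -/
def IsSylowSystem {G : Type} [Group G] (S : (p : Nat.Primes) → Sylow p G) : Prop :=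
  ∀ p q : Nat.Primes, ((S p : Subgroup G) : Set G) * ((S q : Subgroup G) : Set G)
    = ((S q : Subgroup G) : Set G) * ((S p : Subgroup G) : Set G)

/-- The system normalizer: the intersection of the normalizers of the members of the system. -/
def systemNormalizer {G : Type} [Group G] (S : (p : Nat.Primes) → Sylow p G) : Subgroup G :=
  ⨅ p : Nat.Primes, Subgroup.normalizer ((S p : Subgroup G) : Set G)

/-- The hypercentre: the union of the upper central series. -/
def hypercentre (G : Type) [Group G] : Subgroup G := ⨆ i : ℕ, Subgroup.upperCentralSeries G i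

/-- The group of block matrices `[[1, a, c], [0, I, b], [0, 0, e]]` over `ZMod 3`. -/
@[ext] structure HG (m : ℕ) where
  a : Fin m → ZMod 3
  b : Fin m → ZMod 3
  c : ZMod 3
  e : (ZMod 3)ˣ

namespace HG

variable {m : ℕ}

instance : Mul (HG m) :=
  ⟨fun x y => ⟨x.a + y.a, y.b + (y.e : ZMod 3) • x.b, y.c + x.a ⬝ᵥ y.b + (y.e : ZMod 3) * x.c,
    x.e * y.e⟩⟩

instance : One (HG m) := ⟨⟨0, 0, 0, 1⟩⟩

instance : Inv (HG m) :=
  ⟨fun x => ⟨-x.a, -(((x.e⁻¹ : (ZMod 3)ˣ) : ZMod 3) • x.b),
    ((x.e⁻¹ : (ZMod 3)ˣ) : ZMod 3) * (x.a ⬝ᵥ x.b - x.c), x.e⁻¹⟩⟩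

@[simp] lemma mul_a (x y : HG m) : (x * y).a = x.a + y.a := rfl
@[simp] lemma mul_b (x y : HG m) : (x * y).b = y.b + (y.e : ZMod 3) • x.b := rfl
@[simp] lemma mul_c (x y : HG m) :
    (x * y).c = y.c + x.a ⬝ᵥ y.b + (y.e : ZMod 3) * x.c := rfl
@[simp] lemma mul_e (x y : HG m) : (x * y).e = x.e * y.e := rfl
@[simp] lemma one_a : (1 : HG m).a = 0 := rfl
@[simp] lemma one_b : (1 : HG m).b = 0 := rfl
@[simp] lemma one_c : (1 : HG m).c = 0 := rfl
@[simp] lemma one_e : (1 : HG m).e = 1 := rfl
@[simp] lemma inv_a (x : HG m) : x⁻¹.a = -x.a := rfl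
@[simp] lemma inv_b (x : HG m) : x⁻¹.b = -(((x.e⁻¹ : (ZMod 3)ˣ) : ZMod 3) • x.b) := rfl
@[simp] lemma inv_c (x : HG m) :
    x⁻¹.c = ((x.e⁻¹ : (ZMod 3)ˣ) : ZMod 3) * (x.a ⬝ᵥ x.b - x.c) := rfl
@[simp] lemma inv_e (x : HG m) : x⁻¹.e = x.e⁻¹ := rfl

instance : Group (HG m) := Group.ofLeftAxioms
  (by
    intro x y z
    ext i
    · simp [add_assoc]
    · simp only [mul_b, mul_e, Pi.add_apply, Pi.smul_apply, smul_eq_mul, Units.val_mul]
      ring
    · simp only [mul_c, mul_a, mul_b, mul_e, dotProduct_add, add_dotProduct, dotProduct_smul,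
        smul_eq_mul, Units.val_mul]
      ring
    · simp [mul_assoc])
  (by
    intro x
    ext i <;> simp)
  (by
    intro x
    have h : ((x.e : ZMod 3)) * ((x.e⁻¹ : (ZMod 3)ˣ) : ZMod 3) = 1 := Units.mul_inv _
    ext i
    · simp
    · show x.b i + (x.e : ZMod 3) * (-(((x.e⁻¹ : (ZMod 3)ˣ) : ZMod 3) * x.b i)) = 0
      linear_combination (-x.b i) * h
    · show x.c + (-x.a) ⬝ᵥ x.b + (x.e : ZMod 3) *
        (((x.e⁻¹ : (ZMod 3)ˣ) : ZMod 3) * (x.a ⬝ᵥ x.b - x.c)) = 0
      rw [neg_dotProduct]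
      linear_combination (x.a ⬝ᵥ x.b - x.c) * h
    · simp)

instance : Finite (HG m) :=
  Finite.of_injective (fun x : HG m => (x.a, x.b, x.c, x.e)) (by
    intro x y h
    simp only [Prod.mk.injEq] at h
    exact HG.ext h.1 h.2.1 h.2.2.1 h.2.2.2)

/-- The last diagonal entry. -/
def eHom : HG m →* (ZMod 3)ˣ where
  toFun x := x.e
  map_one' := rfl
  map_mul' _ _ := rfl

/-- The pair `(a, e)`. -/
def aeHom : HG m →* Multiplicative (Fin m → ZMod 3) × (ZMod 3)ˣ where
  toFun x := (Multiplicative.ofAdd x.a, x.e)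
  map_one' := rfl
  map_mul' _ _ := rfl

lemma ker_comm (x y : (aeHom (m := m)).ker) : x * y = y * x := by
  obtain ⟨x, hx⟩ := x
  obtain ⟨y, hy⟩ := y
  rw [MonoidHom.mem_ker] at hx hy
  have hxa : x.a = 0 := 
    congrArg (fun z : Multiplicative (Fin m → ZMod 3) × (ZMod 3)ˣ => Multiplicative.toAdd z.1) hx
  have hya : y.a = 0 := 
    congrArg (fun z : Multiplicative (Fin m → ZMod 3) × (ZMod 3)ˣ => Multiplicative.toAdd z.1) hy
  have hxe : x.e = 1 := congrArg (fun z : Multiplicative (Fin m → ZMod 3) × (ZMod 3)ˣ => z.2) hx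
  have hye : y.e = 1 := congrArg (fun z : Multiplicative (Fin m → ZMod 3) × (ZMod 3)ˣ => z.2) hy
  apply Subtype.ext
  show x * y = y * x
  ext i
  · simp [hxa, hya]
  · simp [hxe, hye, add_comm]
  · simp [hxe, hye, hxa, hya, add_comm]
  · simp [hxe, hye]

instance : Group.IsSolvable (HG m) := by
  have h1 : Group.IsSolvable (aeHom (m := m)).ker := Group.isSolvable_of_comm ker_comm
  exact Group.isSolvable_of_ker_le_range (aeHom (m := m)).ker.subtype (aeHom (m := m))
    (by rw [Subgroup.range_subtype])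

lemma unit_cases (u : (ZMod 3)ˣ) : u = 1 ∨ u = -1 := by
  revert u; decide

lemma neg_one_val : (((-1 : (ZMod 3)ˣ)) : ZMod 3) = -1 := rfl

lemma self_neg {x : ZMod 3} (h : x = -x) : x = 0 := by
  revert x; decide

/-- The centre is trivial. -/
lemma eq_one_of_central (x : HG m) (h : ∀ y, x * y = y * x) : x = 1 := by
  have h1 := congrArg HG.c (h ⟨0, 0, 1, 1⟩)
  simp at h1
  have he : x.e = 1 := by
    apply Units.ext
    have : (1 : ZMod 3) + x.c = x.c + (x.e : ZMod 3) := h1
    have h2 : (x.e : ZMod 3) = 1 := by linear_combination -this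
    simpa using h2
  have ht := h ⟨0, 0, 0, -1⟩
  have hc := congrArg HG.c ht
  have hb := congrArg HG.b ht
  simp at hc hb
  have hc0 : x.c = 0 := self_neg hc.symm
  have hb0 : x.b = 0 := by
    funext i
    have := congrFun hb i
    simp at this
    exact self_neg this.symm
  have ha0 : x.a = 0 := by
    funext i
    have h2 := congrArg HG.c (h ⟨0, Pi.single i 1, 0, 1⟩)
    simp at h2
    exact h2
  ext i
  · simp [ha0]
  · simp [hb0]
  · simp [hc0]
  · simp [he]

lemma upper_eq_bot (i : ℕ) : Subgroup.upperCentralSeries (HG m) i = ⊥ := by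
  induction i with
  | zero => rfl
  | succ i ih =>
    rw [eq_bot_iff]
    intro x hx
    rw [Subgroup.mem_upperCentralSeries_succ_iff] at hx
    rw [Subgroup.mem_bot]
    apply eq_one_of_central
    intro y
    have h1 := hx y
    rw [ih, Subgroup.mem_bot] at h1
    rw [commutatorElement_eq_one_iff_mul_comm] at h1
    exact h1

lemma hypercentre_eq_bot : hypercentre (HG m) = ⊥ := by
  unfold hypercentre
  simp [upper_eq_bot]

lemma unit_sq (u : (ZMod 3)ˣ) : u ^ 2 = 1 := by
  revert u; decide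

lemma cube_of_e_one {x : HG m} (h : x.e = 1) : x ^ 3 = 1 := by
  have e3 : (3 : ZMod 3) = 0 := rfl
  rw [pow_succ, pow_two]
  ext i
  · simp only [mul_a, Pi.add_apply, one_a, Pi.zero_apply]
    linear_combination (x.a i) * e3
  · simp only [mul_b, Pi.add_apply, Pi.smul_apply, smul_eq_mul, one_b, Pi.zero_apply, h,
      Units.val_one]
    linear_combination (x.b i) * e3
  · simp only [mul_c, mul_a, add_dotProduct, one_c, h, Units.val_one]
    linear_combination (x.c + x.a ⬝ᵥ x.b) * e3
  · simp [h]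

lemma e_one_of_odd {p : ℕ} (hp : p.Prime) (hp2 : p ≠ 2) {x : HG m} {k : ℕ}
    (hx : x ^ p ^ k = 1) : x.e = 1 := by
  have h1 : x.e ^ p ^ k = 1 := by
    have := congrArg eHom hx
    rw [map_pow, map_one] at this
    exact this
  have h2 := orderOf_dvd_of_pow_eq_one h1
  have h3 := orderOf_dvd_of_pow_eq_one (unit_sq x.e)
  have hc : Nat.Coprime (p ^ k) 2 :=
    Nat.Coprime.pow_left _ ((Nat.coprime_primes hp Nat.prime_two).mpr hp2)
  have h4 := Nat.eq_one_of_dvd_coprimes hc h2 h3
  exact orderOf_eq_one_iff.mp h4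

/-- The members of a two-subgroup. -/
lemma two_subgroup (P : Subgroup (HG m)) (hP : IsPGroup 2 P) :
    ∃ t : HG m, t.e = -1 ∧ ∀ s ∈ P, s = 1 ∨ s = t := by
  have key : ∀ s ∈ P, s.e = 1 → s = 1 := by
    intro s hs he
    obtain ⟨k, hk⟩ := hP ⟨s, hs⟩
    have hk' : s ^ 2 ^ k = 1 := congrArg Subtype.val hk
    have h2 := orderOf_dvd_of_pow_eq_one hk'
    have h3 := orderOf_dvd_of_pow_eq_one (cube_of_e_one he)
    have hc : Nat.Coprime (2 ^ k) 3 := Nat.Coprime.pow_left _ (by norm_num)
    exact orderOf_eq_one_iff.mp (Nat.eq_one_of_dvd_coprimes hc h2 h3)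
  by_cases hex : ∃ t ∈ P, t.e = -1
  · obtain ⟨t, ht, hte⟩ := hex
    refine ⟨t, hte, ?_⟩
    intro s hs
    rcases unit_cases s.e with h | h
    · exact Or.inl (key s hs h)
    · right
      have h1 : s * t⁻¹ = 1 := by
        apply key _ (P.mul_mem hs (P.inv_mem ht))
        simp [h, hte]
      exact mul_inv_eq_one.mp h1
  · push Not at hex
    refine ⟨⟨0, 0, 0, -1⟩, rfl, ?_⟩
    intro s hs
    rcases unit_cases s.e with h | h
    · exact Or.inl (key s hs h)
    · exact absurd h (hex s hs)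

lemma mem_normalizer_of_comm (P : Subgroup (HG m)) (v : HG m) (h : ∀ s ∈ P, v * s = s * v) :
    v ∈ Subgroup.normalizer (P : Set (HG m)) := by
  apply Subgroup.centralizer_le_normalizer
  rw [Subgroup.mem_centralizer_iff]
  intro s hs
  exact (h s hs).symm

/-- Every element normalizes the Sylow subgroups for the odd primes. -/
lemma mem_normalizer_odd {p : ℕ} (hp : p.Prime) (hp2 : p ≠ 2) (P : Sylow p (HG m)) (v : HG m) :
    v ∈ Subgroup.normalizer ((P : Subgroup (HG m)) : Set (HG m)) := by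
  have hle : ∀ s ∈ (P : Subgroup (HG m)), s.e = 1 := by
    intro s hs
    obtain ⟨k, hk⟩ := P.isPGroup' ⟨s, hs⟩
    exact e_one_of_odd hp hp2 (congrArg Subtype.val hk)
  by_cases hp3 : p = 3
  · subst hp3
    have h1 : (eHom (m := m)).ker = (P : Subgroup (HG m)) := by
      apply P.is_maximal'
      · intro g
        refine ⟨1, ?_⟩
        apply Subtype.ext
        show (g : HG m) ^ 3 ^ 1 = 1
        rw [pow_one]
        exact cube_of_e_one (MonoidHom.mem_ker.mp g.2)
      · intro s hs
        rw [MonoidHom.mem_ker]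
        exact hle s hs
    rw [← h1, Subgroup.normalizer_eq_top]
    exact Subgroup.mem_top v
  · apply mem_normalizer_of_comm
    intro s hs
    obtain ⟨k, hk⟩ := P.isPGroup' ⟨s, hs⟩
    have hk' : s ^ p ^ k = 1 := congrArg Subtype.val hk
    have h2 := orderOf_dvd_of_pow_eq_one hk'
    have h3 := orderOf_dvd_of_pow_eq_one (cube_of_e_one (hle s hs))
    have hc : Nat.Coprime (p ^ k) 3 :=
      Nat.Coprime.pow_left _ ((Nat.coprime_primes hp Nat.prime_three).mpr hp3)
    have h4 := orderOf_eq_one_iff.mp (Nat.eq_one_of_dvd_coprimes hc h2 h3)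
    rw [h4, mul_one, one_mul]

/-- Sanity check: in this group every choice of Sylow subgroups is a Sylow system. In particular
Sylow systems exist. -/
lemma isSylowSystem_all (S : (p : Nat.Primes) → Sylow p (HG m)) : IsSylowSystem S := by
  have hnormal : ∀ p : Nat.Primes, (p : ℕ) ≠ 2 → (S p : Subgroup (HG m)).Normal := by
    intro p hp
    rw [← Subgroup.normalizer_eq_top_iff, eq_top_iff]
    intro v _
    exact mem_normalizer_odd p.2 hp (S p) v
  intro p q
  by_cases hp : (p : ℕ) = 2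
  · by_cases hq : (q : ℕ) = 2
    · have : p = q := Subtype.ext (hp.trans hq.symm)
      rw [this]
    · have := hnormal q hq
      exact Subgroup.set_mul_normal_comm _ _
  · have := hnormal p hp
    exact (Subgroup.set_mul_normal_comm _ _).symm

lemma exists_sylowSystem : ∃ S : (p : Nat.Primes) → Sylow p (HG m), IsSylowSystem S :=
  ⟨fun _ => default, isSylowSystem_all _⟩

/-- Few affine conditions have a common nonzero solution. -/
lemma exists_common {n : ℕ} (hn : 0 < n) (β : Fin n → Fin n → ZMod 3) :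
    ∃ a : Fin n → ZMod 3, a ≠ 0 ∧ ∀ i, a ⬝ᵥ β i = a ⬝ᵥ β ⟨0, hn⟩ := by
  let T : (Fin n → ZMod 3) →ₗ[ZMod 3] (Fin n → ZMod 3) :=
    { toFun := fun a i => a ⬝ᵥ (β i - β ⟨0, hn⟩)
      map_add' := by
        intro a a'
        funext i
        exact add_dotProduct _ _ _
      map_smul' := by
        intro r a
        funext i
        exact smul_dotProduct _ _ _ }
  have hT : ∀ a i, T a i = a ⬝ᵥ (β i - β ⟨0, hn⟩) := fun _ _ => rfl
  have hns : ¬ Function.Surjective T := by
    intro hs
    obtain ⟨a, ha⟩ := hs (fun _ => 1)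
    have h1 := congrFun ha ⟨0, hn⟩
    rw [hT, sub_self, dotProduct_zero] at h1
    exact zero_ne_one h1
  have hni : ¬ Function.Injective T := fun h => hns (LinearMap.injective_iff_surjective.mp h)
  rw [← LinearMap.ker_eq_bot, Submodule.eq_bot_iff] at hni
  push Not at hni
  obtain ⟨a, ha, ha0⟩ := hni
  refine ⟨a, ha0, ?_⟩
  intro i
  have h1 := congrFun (LinearMap.mem_ker.mp ha) i
  rw [hT, dotProduct_sub] at h1
  exact sub_eq_zero.mp h1

end HG

/-- There is no uniform bound. -/
theorem result : ∀ n : ℕ, 0 < n →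
    ∃ (G : Type) (_ : Group G) (_ : Finite G) (_ : Group.IsSolvable G),
      ∀ S : Fin n → (p : Nat.Primes) → Sylow p G, (∀ i, IsSylowSystem (S i)) →
        hypercentre G ≠ ⨅ i, systemNormalizer (S i) := by
  intro n hn
  refine ⟨HG n, inferInstance, inferInstance, inferInstance, ?_⟩
  intro S _ heq
  have hchoose : ∀ i, ∃ t : HG n, t.e = -1 ∧
      ∀ s ∈ (S i ⟨2, Nat.prime_two⟩ : Subgroup (HG n)), s = 1 ∨ s = t :=
    fun i => HG.two_subgroup _ (S i ⟨2, Nat.prime_two⟩).isPGroup'
  choose t hte ht using hchoose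
  obtain ⟨a, ha0, ha⟩ := HG.exists_common hn (fun i => (t i).b)
  let v : HG n := ⟨a, 0, -(a ⬝ᵥ (t ⟨0, hn⟩).b), 1⟩
  have hcomm : ∀ i, v * t i = t i * v := by
    intro i
    have e3 : (3 : ZMod 3) = 0 := rfl
    ext j
    · show a j + (t i).a j = (t i).a j + a j
      ring
    · simp [v, hte i]
    · have h1 := ha i
      simp only [HG.mul_c, v, hte i, HG.neg_one_val, dotProduct_zero, Units.val_one]
      linear_combination h1 + (a ⬝ᵥ (t ⟨0, hn⟩).b) * e3
    · simp [v]
  have hmem : v ∈ ⨅ i, systemNormalizer (S i) := by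
    rw [Subgroup.mem_iInf]
    intro i
    rw [systemNormalizer, Subgroup.mem_iInf]
    intro p
    by_cases hp : (p : ℕ) = 2
    · have hp' : p = ⟨2, Nat.prime_two⟩ := Subtype.ext hp
      subst hp'
      apply HG.mem_normalizer_of_comm
      intro s hs
      rcases ht i s hs with h | h
      · rw [h, mul_one, one_mul]
      · rw [h]; exact hcomm i
    · exact HG.mem_normalizer_odd p.2 hp _ _
  rw [← heq, HG.hypercentre_eq_bot, Subgroup.mem_bot] at hmem
  exact ha0 (congrArg HG.a hmem)

end Pool.Agent.Results.MP_c7d465_al.NoBound
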